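import Mathlib

set_option autoImplicit false

namespace Pool.Agent.R578.SNR

open Finset

/-- pairs (a, b), a in A, b not in A, adjacent, both in S -/
noncomputable def eSet {V : Type} [DecidableEq V] (G : SimpleGraph V) [DecidableRel G.Adj]
    (A S : Finset V) : Finset (V × V) :=
  (S ×ˢ S).filter (fun p => p.1 ∈ A ∧ p.2 ∉ A ∧ G.Adj p.1 p.2)

lemma eSet_erase {V : Type} [DecidableEq V] (G : SimpleGraph V) [DecidableRel G.Adj]
    (A S : Finset V) (v : V) :
    (eSet G A S).card ≤ (eSet G A (S.erase v)).card +
      (S.filter (fun w => G.Adj v w)).card := by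
  classical
  have hsub : eSet G A S ⊆ eSet G A (S.erase v) ∪
      (S.filter (fun w => G.Adj v w)).image (fun w => if v ∈ A then (v, w) else (w, v)) := by
    rintro ⟨x, y⟩ hp
    simp only [eSet, mem_filter, mem_product] at hp
    obtain ⟨⟨hx, hy⟩, hxA, hyA, hadj⟩ := hp
    by_cases h1 : x = v
    · subst h1
      apply mem_union_right
      rw [mem_image]
      exact ⟨y, by simp [hy, hadj], by simp [hxA]⟩
    · by_cases h2 : y = v
      · subst h2
        apply mem_union_right
        rw [mem_image]
        exact ⟨x, by simp [hx, hadj.symm], by simp [hyA]⟩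
      · apply mem_union_left
        simp only [eSet, mem_filter, mem_product, mem_erase]
        exact ⟨⟨⟨h1, hx⟩, ⟨h2, hy⟩⟩, hxA, hyA, hadj⟩
  calc (eSet G A S).card ≤ _ := card_le_card hsub
    _ ≤ _ := card_union_le _ _
    _ ≤ _ := by
      apply Nat.add_le_add_left
      exact card_image_le

lemma extract {V : Type} [DecidableEq V] (G : SimpleGraph V) [DecidableRel G.Adj]
    (A : Finset V) (d : ℕ) : ∀ (n : ℕ) (S : Finset V), S.card = n →
    d * S.card < (eSet G A S).card →
    ∃ S' ⊆ S, S'.Nonempty ∧ ∀ v ∈ S', d < (S'.filter (fun w => G.Adj v w)).card := by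
  intro n
  induction n with
  | zero =>
    intro S hS h
    rw [card_eq_zero] at hS
    subst hS
    simp [eSet] at h
  | succ n ih =>
    intro S hS h
    by_cases hall : ∀ v ∈ S, d < (S.filter (fun w => G.Adj v w)).card
    · refine ⟨S, Subset.refl _, ?_, hall⟩
      rw [← card_pos]; omega
    · push Not at hall
      obtain ⟨v, hv, hd⟩ := hall
      have hc : (S.erase v).card = n := by rw [card_erase_of_mem hv]; omega
      have h1 := eSet_erase G A S v
      have h2 : d * (S.erase v).card < (eSet G A (S.erase v)).card := by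
        rw [hc]
        rw [hS] at h
        have : d * (n + 1) = d * n + d := by ring
        omega
      obtain ⟨S', hS', hne, hdeg⟩ := ih _ hc h2
      exact ⟨S', hS'.trans (erase_subset _ _), hne, hdeg⟩

/-- number of maps that are constant on three given points -/
lemma mono_count {V : Type} [Fintype V] [DecidableEq V] (M : ℕ) (a b c : V)
    (hab : a ≠ b) (hac : a ≠ c) (hbc : b ≠ c) :
    M ^ 2 * ((univ : Finset (V → Fin M)).filter (fun g => g a = g b ∧ g b = g c)).card ≤
      M ^ (Fintype.card V) := by
  classical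
  have hinj : Set.InjOn (fun p : (Fin M × Fin M) × (V → Fin M) =>
      Function.update (Function.update p.2 b p.1.1) c p.1.2)
      (((univ : Finset (Fin M × Fin M)) ×ˢ
        ((univ : Finset (V → Fin M)).filter (fun g => g a = g b ∧ g b = g c)) :
        Finset ((Fin M × Fin M) × (V → Fin M))) : Set ((Fin M × Fin M) × (V → Fin M))) := by
    rintro ⟨⟨x, y⟩, g⟩ hg ⟨⟨x', y'⟩, g'⟩ hg' heq
    simp only [coe_product, coe_univ, Set.mem_prod, Set.mem_univ, true_and, mem_coe,
      mem_filter, mem_univ] at hg hg'
    simp only at heq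
    have hc := congrFun heq c
    simp only [Function.update_self] at hc
    have hb := congrFun heq b
    rw [Function.update_of_ne hbc, Function.update_of_ne hbc, Function.update_self,
      Function.update_self] at hb
    have ha := congrFun heq a
    rw [Function.update_of_ne hac, Function.update_of_ne hac, Function.update_of_ne hab,
      Function.update_of_ne hab] at ha
    have hgg : g = g' := by
      funext v
      by_cases h1 : v = c
      · subst h1; rw [← hg.2, ← hg.1, ha, hg'.1, hg'.2]
      · by_cases h2 : v = b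
        · subst h2; rw [← hg.1, ha, hg'.1]
        · have := congrFun heq v
          rwa [Function.update_of_ne h1, Function.update_of_ne h1, Function.update_of_ne h2,
            Function.update_of_ne h2] at this
    rw [hb, hc, hgg]
  have hcard := Finset.card_le_card_of_injOn (t := (univ : Finset (V → Fin M))) _
    (fun _ _ => mem_coe.2 (mem_univ _)) hinj
  rw [card_product] at hcard
  simp only [card_univ, Fintype.card_prod, Fintype.card_fin, Fintype.card_fun] at hcard
  calc _ = M * M * ((univ : Finset (V → Fin M)).filter (fun g => g a = g b ∧ g b = g c)).card := by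
        ring
    _ ≤ _ := hcard

lemma coloring {V : Type} [Fintype V] [DecidableEq V] (M : ℕ) (hM : 0 < M) (A : Finset V)
    (T : Finset (V × V × V))
    (hT : ∀ t ∈ T, t.1 ≠ t.2.1 ∧ t.1 ≠ t.2.2 ∧ t.2.1 ≠ t.2.2)
    (hcard : 2 * T.card ≤ M ^ 2 * A.card) :
    ∃ A' ⊆ A, A.card ≤ 2 * M * A'.card ∧
      ∀ t ∈ T, ¬ (t.1 ∈ A' ∧ t.2.1 ∈ A' ∧ t.2.2 ∈ A') := by
  classical
  -- a good map and colour
  have key : ∃ (g : V → Fin M) (c : Fin M),
      A.card + 2 * M * ((T.filter (fun t => g t.1 = g t.2.1 ∧ g t.2.1 = g t.2.2)).filter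
        (fun t => g t.1 = c)).card ≤ 2 * M * (A.filter (fun a => g a = c)).card := by
    by_contra hno
    push Not at hno
    have h1 : ∀ g : V → Fin M, A.card <
        2 * (T.filter (fun t => g t.1 = g t.2.1 ∧ g t.2.1 = g t.2.2)).card := by
      intro g
      have hs : ∑ c : Fin M, 2 * M * (A.filter (fun a => g a = c)).card <
          ∑ c : Fin M, (A.card + 2 * M * ((T.filter (fun t => g t.1 = g t.2.1 ∧
            g t.2.1 = g t.2.2)).filter (fun t => g t.1 = c)).card) := by
        haveI : NeZero M := ⟨hM.ne'⟩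
        apply Finset.sum_lt_sum_of_nonempty
        · exact ⟨0, mem_univ _⟩
        · intro c _
          exact hno g c
      rw [← Finset.mul_sum, Finset.sum_add_distrib, ← Finset.mul_sum] at hs
      rw [← Finset.card_eq_sum_card_fiberwise (f := fun a => g a) (t := (univ : Finset (Fin M)))
        (fun _ _ => mem_coe.2 (mem_univ _))] at hs
      rw [← Finset.card_eq_sum_card_fiberwise (f := fun t : V × V × V => g t.1)
        (t := (univ : Finset (Fin M)))
        (fun _ _ => mem_coe.2 (mem_univ _))] at hs
      simp only [sum_const, card_univ, Fintype.card_fin, smul_eq_mul] at hs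
      set X := (T.filter (fun t => g t.1 = g t.2.1 ∧ g t.2.1 = g t.2.2)).card
      have : M * A.card < M * (2 * X) := by nlinarith
      exact lt_of_mul_lt_mul_left this (Nat.zero_le _)
    have h2 : ∑ g : V → Fin M, A.card <
        ∑ g : V → Fin M, 2 * (T.filter (fun t => g t.1 = g t.2.1 ∧ g t.2.1 = g t.2.2)).card := by
      haveI : NeZero M := ⟨hM.ne'⟩
      apply Finset.sum_lt_sum_of_nonempty
      · exact ⟨fun _ => 0, mem_univ _⟩
      · intro g _
        exact h1 g
    rw [← Finset.mul_sum] at h2
    have h3 : ∑ g : V → Fin M, (T.filter (fun t => g t.1 = g t.2.1 ∧ g t.2.1 = g t.2.2)).card =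
        ∑ t ∈ T, ((univ : Finset (V → Fin M)).filter
          (fun g => g t.1 = g t.2.1 ∧ g t.2.1 = g t.2.2)).card := by
      simp only [Finset.card_filter]
      exact Finset.sum_comm
    have h4 : M ^ 2 * ∑ t ∈ T, ((univ : Finset (V → Fin M)).filter
          (fun g => g t.1 = g t.2.1 ∧ g t.2.1 = g t.2.2)).card ≤
          T.card * M ^ (Fintype.card V) := by
      rw [Finset.mul_sum]
      calc _ ≤ ∑ t ∈ T, M ^ (Fintype.card V) := by
            apply Finset.sum_le_sum
            intro t ht
            obtain ⟨u1, u2, u3⟩ := hT t ht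
            exact mono_count M t.1 t.2.1 t.2.2 u1 u2 u3
        _ = _ := by simp
    simp only [sum_const, card_univ, Fintype.card_fun, Fintype.card_fin, smul_eq_mul] at h2
    rw [h3] at h2
    set Y := ∑ t ∈ T, ((univ : Finset (V → Fin M)).filter
          (fun g => g t.1 = g t.2.1 ∧ g t.2.1 = g t.2.2)).card
    have hP : 0 < M ^ (Fintype.card V) := pow_pos hM _
    set P := M ^ (Fintype.card V)
    have hM2 : 0 < M ^ 2 := pow_pos hM _
    have h5 : M ^ 2 * (P * A.card) < M ^ 2 * (2 * Y) := Nat.mul_lt_mul_of_pos_left h2 hM2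
    have h6 : M ^ 2 * (2 * Y) ≤ 2 * (T.card * P) := by
      calc _ = 2 * (M ^ 2 * Y) := by ring
        _ ≤ _ := Nat.mul_le_mul_left _ h4
    have h7 : 2 * (T.card * P) ≤ M ^ 2 * A.card * P := by
      calc _ = (2 * T.card) * P := by ring
        _ ≤ _ := Nat.mul_le_mul_right _ hcard
    have h8 : M ^ 2 * (P * A.card) = M ^ 2 * A.card * P := by ring
    omega
  obtain ⟨g, c, hgc⟩ := key
  set Tc := (T.filter (fun t => g t.1 = g t.2.1 ∧ g t.2.1 = g t.2.2)).filter
        (fun t => g t.1 = c) with hTc
  set Ac := A.filter (fun a => g a = c) with hAc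
  refine ⟨Ac \ Tc.image (fun t => t.1), ?_, ?_, ?_⟩
  · exact sdiff_subset.trans (filter_subset _ _)
  · have h1 : Ac.card ≤ (Ac \ Tc.image (fun t => t.1)).card + Tc.card := by
      have := Finset.le_card_sdiff (Tc.image (fun t => t.1)) Ac
      have h2 : (Tc.image (fun t => t.1)).card ≤ Tc.card := card_image_le
      omega
    have h2 : 2 * M * Ac.card ≤ 2 * M * (Ac \ Tc.image (fun t => t.1)).card +
        2 * M * Tc.card := by
      rw [← Nat.mul_add]; exact Nat.mul_le_mul_left _ h1
    omega
  · rintro t ht ⟨k1, k2, k3⟩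
    rw [mem_sdiff, hAc, mem_filter] at k1 k2 k3
    apply k1.2
    rw [mem_image]
    refine ⟨t, ?_, rfl⟩
    rw [hTc, mem_filter, mem_filter]
    exact ⟨⟨ht, by rw [k1.1.2, k2.1.2], by rw [k2.1.2, k3.1.2]⟩, k1.1.2⟩

end Pool.Agent.R578.SNR
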