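import Pool.Agent.R578.SNR.Basic

set_option autoImplicit false

namespace Pool.Agent.R578.SNR

open Finset

lemma mono_count2 {V : Type} [Fintype V] [DecidableEq V] (M : ℕ) (a b : V)
    (hab : a ≠ b) :
    M * ((univ : Finset (V → Fin M)).filter (fun g => g a = g b)).card ≤
      M ^ (Fintype.card V) := by
  classical
  have hinj : Set.InjOn (fun p : (Fin M) × (V → Fin M) =>
      Function.update p.2 b p.1)
      (((univ : Finset (Fin M)) ×ˢ
        ((univ : Finset (V → Fin M)).filter (fun g => g a = g b)) :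
        Finset ((Fin M) × (V → Fin M))) : Set ((Fin M) × (V → Fin M))) := by
    rintro ⟨x, g⟩ hg ⟨x', g'⟩ hg' heq
    simp only [coe_product, coe_univ, Set.mem_prod, Set.mem_univ, true_and, mem_coe,
      mem_filter, mem_univ] at hg hg'
    simp only at heq
    have hb := congrFun heq b
    rw [Function.update_self, Function.update_self] at hb
    have ha := congrFun heq a
    rw [Function.update_of_ne hab, Function.update_of_ne hab] at ha
    have hgg : g = g' := by
      funext v
      by_cases h2 : v = b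
      · subst h2; rw [← hg, ha, hg']
      · have := congrFun heq v
        rwa [Function.update_of_ne h2, Function.update_of_ne h2] at this
    rw [hb, hgg]
  have hcard := Finset.card_le_card_of_injOn (t := (univ : Finset (V → Fin M))) _
    (fun _ _ => mem_coe.2 (mem_univ _)) hinj
  rw [card_product] at hcard
  simp only [card_univ, Fintype.card_fin, Fintype.card_fun] at hcard
  exact hcard

lemma coloring2 {V Γ : Type} [DecidableEq V] [Fintype Γ] [DecidableEq Γ]
    (M : ℕ) (hM : 0 < M) (A : Finset V) (grp : V → Γ)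
    (P3 P2 : Finset (V × V × V))
    (h3 : ∀ t ∈ P3, grp t.1 ≠ grp t.2.1 ∧ grp t.1 ≠ grp t.2.2 ∧ grp t.2.1 ≠ grp t.2.2)
    (h2 : ∀ t ∈ P2, grp t.1 ≠ grp t.2.2)
    (L : Finset Γ) (d β : ℕ)
    (hcount : M ^ 2 * (d * L.card + M * (d * β)) + P3.card + M * P2.card < M ^ 2 * A.card) :
    ∃ (g : Γ → Fin M) (c : Fin M) (A' : Finset V), A' ⊆ A ∧ (∀ a ∈ A', g (grp a) = c) ∧
      d * (L.filter (fun l => g l = c)).card + d * β < A'.card ∧
      (∀ t ∈ P3, ¬ (t.1 ∈ A' ∧ t.2.1 ∈ A' ∧ t.2.2 ∈ A')) ∧
      (∀ t ∈ P2, ¬ (t.1 ∈ A' ∧ t.2.1 ∈ A' ∧ t.2.2 ∈ A')) := by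
  classical
  have key : ∃ (g : Γ → Fin M) (c : Fin M),
      d * (L.filter (fun l => g l = c)).card + d * β +
      ((P3.filter (fun t => g (grp t.1) = g (grp t.2.1) ∧ g (grp t.2.1) = g (grp t.2.2))).filter
        (fun t => g (grp t.1) = c)).card +
      ((P2.filter (fun t => g (grp t.1) = g (grp t.2.2))).filter
        (fun t => g (grp t.1) = c)).card <
      (A.filter (fun a => g (grp a) = c)).card := by
    by_contra hno
    push Not at hno
    have h1 : ∀ g : Γ → Fin M, A.card ≤ d * L.card + M * (d * β) +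
        (P3.filter (fun t => g (grp t.1) = g (grp t.2.1) ∧ g (grp t.2.1) = g (grp t.2.2))).card +
        (P2.filter (fun t => g (grp t.1) = g (grp t.2.2))).card := by
      intro g
      have hs := Finset.sum_le_sum (s := (univ : Finset (Fin M))) (fun c _ => hno g c)
      rw [Finset.sum_add_distrib, Finset.sum_add_distrib, Finset.sum_add_distrib,
        ← Finset.mul_sum] at hs
      rw [← Finset.card_eq_sum_card_fiberwise (f := fun a : V => g (grp a))
        (t := (univ : Finset (Fin M))) (fun _ _ => mem_coe.2 (mem_univ _))] at hs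
      rw [← Finset.card_eq_sum_card_fiberwise (f := fun l : Γ => g l)
        (t := (univ : Finset (Fin M))) (fun _ _ => mem_coe.2 (mem_univ _))] at hs
      rw [← Finset.card_eq_sum_card_fiberwise (f := fun t : V × V × V => g (grp t.1))
        (t := (univ : Finset (Fin M)))
        (fun _ _ => mem_coe.2 (mem_univ _))] at hs
      rw [← Finset.card_eq_sum_card_fiberwise (f := fun t : V × V × V => g (grp t.1))
        (t := (univ : Finset (Fin M)))
        (fun _ _ => mem_coe.2 (mem_univ _))] at hs
      simpa only [sum_const, card_univ, Fintype.card_fin, smul_eq_mul] using hs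
    have h4 := Finset.sum_le_sum (s := (univ : Finset (Γ → Fin M))) (fun g _ => h1 g)
    rw [Finset.sum_add_distrib, Finset.sum_add_distrib] at h4
    simp only [sum_const, card_univ, Fintype.card_fun, Fintype.card_fin, smul_eq_mul] at h4
    have e3 : ∑ g : Γ → Fin M, (P3.filter (fun t => g (grp t.1) = g (grp t.2.1) ∧
        g (grp t.2.1) = g (grp t.2.2))).card =
        ∑ t ∈ P3, ((univ : Finset (Γ → Fin M)).filter
          (fun g => g (grp t.1) = g (grp t.2.1) ∧ g (grp t.2.1) = g (grp t.2.2))).card := by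
      simp only [Finset.card_filter]
      exact Finset.sum_comm
    have e2 : ∑ g : Γ → Fin M, (P2.filter (fun t => g (grp t.1) = g (grp t.2.2))).card =
        ∑ t ∈ P2, ((univ : Finset (Γ → Fin M)).filter
          (fun g => g (grp t.1) = g (grp t.2.2))).card := by
      simp only [Finset.card_filter]
      exact Finset.sum_comm
    rw [e3, e2] at h4
    have b3 : M ^ 2 * ∑ t ∈ P3, ((univ : Finset (Γ → Fin M)).filter
          (fun g => g (grp t.1) = g (grp t.2.1) ∧ g (grp t.2.1) = g (grp t.2.2))).card ≤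
          P3.card * M ^ (Fintype.card Γ) := by
      rw [Finset.mul_sum]
      calc _ ≤ ∑ t ∈ P3, M ^ (Fintype.card Γ) := by
            apply Finset.sum_le_sum
            intro t ht
            obtain ⟨u1, u2, u3⟩ := h3 t ht
            exact mono_count M _ _ _ u1 u2 u3
        _ = _ := by simp
    have b2 : M * ∑ t ∈ P2, ((univ : Finset (Γ → Fin M)).filter
          (fun g => g (grp t.1) = g (grp t.2.2))).card ≤
          P2.card * M ^ (Fintype.card Γ) := by
      rw [Finset.mul_sum]
      calc _ ≤ ∑ t ∈ P2, M ^ (Fintype.card Γ) := by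
            apply Finset.sum_le_sum
            intro t ht
            exact mono_count2 M _ _ (h2 t ht)
        _ = _ := by simp
    set Y3 := ∑ t ∈ P3, ((univ : Finset (Γ → Fin M)).filter
          (fun g => g (grp t.1) = g (grp t.2.1) ∧ g (grp t.2.1) = g (grp t.2.2))).card
    set Y2 := ∑ t ∈ P2, ((univ : Finset (Γ → Fin M)).filter
          (fun g => g (grp t.1) = g (grp t.2.2))).card
    have hP : 0 < M ^ (Fintype.card Γ) := pow_pos hM _
    set P := M ^ (Fintype.card Γ)
    set X := d * L.card + M * (d * β)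
    have h5 : M ^ 2 * (P * A.card) ≤ M ^ 2 * (P * X + Y3 + Y2) := Nat.mul_le_mul_left _ h4
    have h6 : M ^ 2 * (P * X + Y3 + Y2) = P * (M ^ 2 * X) + M ^ 2 * Y3 + M * (M * Y2) := by ring
    have h7 : M * (M * Y2) ≤ M * (P2.card * P) := Nat.mul_le_mul_left _ b2
    have h8 : P * (M ^ 2 * X + P3.card + M * P2.card) < P * (M ^ 2 * A.card) :=
      Nat.mul_lt_mul_of_pos_left hcount hP
    have h9 : P * (M ^ 2 * X + P3.card + M * P2.card) =
        P * (M ^ 2 * X) + P3.card * P + M * (P2.card * P) := by ring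
    have h10 : P * (M ^ 2 * A.card) = M ^ 2 * (P * A.card) := by ring
    omega
  obtain ⟨g, c, hgc⟩ := key
  set T3 := (P3.filter (fun t => g (grp t.1) = g (grp t.2.1) ∧
    g (grp t.2.1) = g (grp t.2.2))).filter (fun t => g (grp t.1) = c) with hT3
  set T2 := (P2.filter (fun t => g (grp t.1) = g (grp t.2.2))).filter
    (fun t => g (grp t.1) = c) with hT2
  set Ac := A.filter (fun a => g (grp a) = c) with hAc
  refine ⟨g, c, Ac \ ((T3 ∪ T2).image (fun t => t.1)), ?_, ?_, ?_, ?_, ?_⟩
  · exact sdiff_subset.trans (filter_subset _ _)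
  · intro a ha
    rw [mem_sdiff, hAc, mem_filter] at ha
    exact ha.1.2
  · have h1 := Finset.le_card_sdiff ((T3 ∪ T2).image (fun t => t.1)) Ac
    have h2 : ((T3 ∪ T2).image (fun t : V × V × V => t.1)).card ≤ (T3 ∪ T2).card :=
      card_image_le
    have h3 : (T3 ∪ T2).card ≤ T3.card + T2.card := card_union_le _ _
    omega
  · rintro t ht ⟨k1, k2, k3⟩
    rw [mem_sdiff, hAc, mem_filter] at k1 k2 k3
    apply k1.2
    rw [mem_image]
    refine ⟨t, ?_, rfl⟩
    apply mem_union_left
    rw [hT3, mem_filter, mem_filter]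
    exact ⟨⟨ht, by rw [k1.1.2, k2.1.2], by rw [k2.1.2, k3.1.2]⟩, k1.1.2⟩
  · rintro t ht ⟨k1, k2, k3⟩
    rw [mem_sdiff, hAc, mem_filter] at k1 k2 k3
    apply k1.2
    rw [mem_image]
    refine ⟨t, ?_, rfl⟩
    apply mem_union_right
    rw [hT2, mem_filter, mem_filter]
    exact ⟨⟨ht, by rw [k1.1.2, k3.1.2]⟩, k1.1.2⟩

end Pool.Agent.R578.SNR
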