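import Pool.Agent.R578.SNR.Color

set_option autoImplicit false

namespace Pool.Agent.R578.SNR

open Finset

lemma four_cycle {V : Type} (G : SimpleGraph V)
    (h5 : ∀ (v : V) (p : G.Walk v v), p.IsCycle → p.length ≠ 4)
    {a b c e : V} (hab : G.Adj a b) (hbc : G.Adj b c) (hce : G.Adj c e) (hea : G.Adj e a)
    (hac : a ≠ c) (hbe : b ≠ e) : False := by
  have hcyc : (SimpleGraph.Walk.cons hab
      (SimpleGraph.Walk.cons hbc (SimpleGraph.Walk.cons hce
        (SimpleGraph.Walk.cons hea SimpleGraph.Walk.nil)))).IsCycle := by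
    rw [SimpleGraph.Walk.cons_isCycle_iff]
    constructor
    · simp only [SimpleGraph.Walk.cons_isPath_iff, SimpleGraph.Walk.isPath_iff_eq_nil,
        SimpleGraph.Walk.support_cons, SimpleGraph.Walk.support_nil, List.mem_cons,
        List.mem_singleton, List.not_mem_nil, or_false, not_or, true_and]
      exact ⟨⟨hea.ne, hce.ne, fun h => hac h.symm⟩, hbc.ne, hbe, fun h => hab.ne h.symm⟩
    · simp only [SimpleGraph.Walk.edges_cons, SimpleGraph.Walk.edges_nil, List.mem_cons,
        List.not_mem_nil, or_false, not_or, Sym2.eq_iff, not_and]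
      refine ⟨⟨fun h => absurd h hab.ne, fun h => absurd h hac⟩,
        ⟨fun h => absurd h hac, fun h => ?_⟩, ⟨fun h => absurd h hea.ne.symm, fun _ h => hbe h⟩⟩
      exact absurd h hea.ne.symm
  exact h5 _ _ hcyc rfl

/-- The combinatorial setting. -/
structure Setup {V : Type} [Fintype V] [DecidableEq V] (G : SimpleGraph V)
    (A : Finset V) (r : ℕ) (f : V → Fin r) (nb : V → Fin r → V) (D : Fin r → ℕ) : Prop where
  bip : ∀ u v : V, G.Adj u v → (u ∈ A ↔ v ∉ A)
  nbA : ∀ a ∈ A, ∀ i, nb a i ∉ A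
  nbf : ∀ a ∈ A, ∀ i, f (nb a i) = i
  nbadj : ∀ a ∈ A, ∀ i, G.Adj a (nb a i)
  nbu : ∀ a ∈ A, ∀ b, b ∉ A → G.Adj a b → nb a (f b) = b
  deg : ∀ b, b ∉ A → (A.filter (fun a => nb a (f b) = b)).card = D (f b)
  c4 : ∀ x ∈ A, ∀ y ∈ A, ∀ j k : Fin r, j ≠ k → nb x j = nb y j → nb x k = nb y k → x = y

section
variable {V : Type} [Fintype V] [DecidableEq V] {G : SimpleGraph V}
  {A : Finset V} {r : ℕ} {f : V → Fin r} {nb : V → Fin r → V} {D : Fin r → ℕ}

lemma Setup.class_card (S : Setup G A r f nb D) (i : Fin r) :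
    (univ.filter (fun b => b ∉ A ∧ f b = i)).card * D i = A.card := by
  classical
  have h1 : A.card = ∑ b ∈ univ.filter (fun b => b ∉ A ∧ f b = i),
      (A.filter (fun a => nb a i = b)).card := by
    apply Finset.card_eq_sum_card_fiberwise
    intro a ha
    have ha' : a ∈ A := ha
    simp only [coe_filter, mem_univ, true_and, Set.mem_ofPred_eq]
    exact ⟨S.nbA a ha' i, S.nbf a ha' i⟩
  rw [h1, Finset.sum_congr rfl (g := fun _ => D i), Finset.sum_const, smul_eq_mul]
  intro b hb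
  rw [mem_filter] at hb
  obtain ⟨_, hbA, hbf⟩ := hb
  have := S.deg b hbA
  rw [hbf] at this
  exact this

/-- triples x, y, z, pairwise joined through the classes i (x,y), j (x,z), k (y,z) -/
def T0 (A : Finset V) (nb : V → Fin r → V) (i j k : Fin r) : Finset (V × V × V) :=
  (A ×ˢ A ×ˢ A).filter (fun t => t.1 ≠ t.2.1 ∧ t.1 ≠ t.2.2 ∧ t.2.1 ≠ t.2.2 ∧
    nb t.1 i = nb t.2.1 i ∧ nb t.1 j = nb t.2.2 j ∧ nb t.2.1 k = nb t.2.2 k)

lemma Setup.T0_card (S : Setup G A r f nb D) (i j k : Fin r) (hjk : j ≠ k) :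
    (T0 A nb i j k).card ≤ D i * A.card := by
  classical
  have h1 := Finset.card_le_mul_card_image (f := fun t : V × V × V => t.1) (T0 A nb i j k) (D i)
    ?_
  · refine h1.trans (Nat.mul_le_mul_left _ (card_le_card ?_))
    intro x hx
    rw [mem_image] at hx
    obtain ⟨t, ht, rfl⟩ := hx
    rw [T0, mem_filter, mem_product] at ht
    exact ht.1.1
  · intro x hx
    rw [mem_image] at hx
    obtain ⟨t0, ht0, hx0⟩ := hx
    have hxA : x ∈ A := by
      rw [T0, mem_filter, mem_product] at ht0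
      rw [← hx0]; exact ht0.1.1
    have hd := S.deg (nb x i) (S.nbA x hxA i)
    rw [S.nbf x hxA i] at hd
    rw [← hd]
    apply Finset.card_le_card_of_injOn (fun t => t.2.1)
    · rintro t ht
      rw [mem_coe, mem_filter] at ht
      obtain ⟨ht, htx⟩ := ht
      rw [T0, mem_filter, mem_product, mem_product] at ht
      rw [mem_coe, mem_filter]
      refine ⟨ht.1.2.1, ?_⟩
      rw [← htx]; exact ht.2.2.2.2.1.symm
    · rintro ⟨a, b, c⟩ ht ⟨a', b', c'⟩ ht' hbb
      simp only [mem_coe, mem_filter, T0, mem_product] at ht ht' hbb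
      obtain ⟨⟨⟨ha, hb, hc⟩, _, _, _, _, hj, hk⟩, rfl⟩ := ht
      obtain ⟨⟨⟨ha', hb', hc'⟩, _, _, _, _, hj', hk'⟩, haa⟩ := ht'
      subst haa
      subst hbb
      have : c = c' := S.c4 c hc c' hc' j k hjk (by rw [← hj, ← hj']) (by rw [← hk, ← hk'])
      rw [this]


lemma exists_pos (X : Finset V) : ∃ p : V → ℕ, Set.InjOn p (X : Set V) ∧ ∀ x ∈ X, p x < X.card := by
  classical
  refine ⟨fun x => if h : x ∈ X then (X.equivFin ⟨x, h⟩).val else 0, ?_, ?_⟩
  · intro x hx y hy hxy
    have hx' : x ∈ X := hx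
    have hy' : y ∈ X := hy
    simp only [hx', hy', dif_pos] at hxy
    have := X.equivFin.injective (Fin.ext hxy)
    simpa using this
  · intro x hx
    simp only [hx, dif_pos]
    exact (X.equivFin ⟨x, hx⟩).isLt

/-- triples of distinct classes of `I0`, the first one having the least degree -/
def Q3 (D : Fin r → ℕ) (I0 : Finset (Fin r)) : Finset (Fin r × Fin r × Fin r) :=
  (I0 ×ˢ I0 ×ˢ I0).filter (fun q => q.1 ≠ q.2.1 ∧ q.1 ≠ q.2.2 ∧ q.2.1 ≠ q.2.2 ∧
    D q.1 ≤ D q.2.1 ∧ D q.1 ≤ D q.2.2)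

/-- hexagons with classes in `I0`, given by their three vertices in `A` -/
def P3a (A : Finset V) (nb : V → Fin r → V) (D : Fin r → ℕ) (I0 : Finset (Fin r)) :
    Finset (V × V × V) :=
  (Q3 D I0).biUnion (fun q => T0 A nb q.1 q.2.1 q.2.2)

lemma Setup.P3a_card (S : Setup G A r f nb D) (n d : ℕ) (I0 : Finset (Fin r))
    (hI0 : I0.card = d) (l0 : Fin r)
    (hT : ∀ i ∈ I0, ∀ j ∈ I0, ∀ k ∈ I0, i ≠ j → i ≠ k → j ≠ k → D i ≤ D j → D i ≤ D k →
      512 * n ^ 7 * D i ≤ D l0 ^ 2) :
    512 * n ^ 7 * (P3a A nb D I0).card ≤ d ^ 3 * (D l0 ^ 2 * A.card) := by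
  have hQ3card : (Q3 D I0).card ≤ d ^ 3 := by
    calc (Q3 D I0).card ≤ (I0 ×ˢ I0 ×ˢ I0).card := card_filter_le _ _
      _ = d ^ 3 := by rw [card_product, card_product, hI0]; ring
  calc 512 * n ^ 7 * (P3a A nb D I0).card
      ≤ 512 * n ^ 7 * ∑ q ∈ Q3 D I0, (T0 A nb q.1 q.2.1 q.2.2).card :=
        Nat.mul_le_mul_left _ card_biUnion_le
    _ = ∑ q ∈ Q3 D I0, 512 * n ^ 7 * (T0 A nb q.1 q.2.1 q.2.2).card := by rw [Finset.mul_sum]
    _ ≤ ∑ q ∈ Q3 D I0, D l0 ^ 2 * A.card := by
        apply Finset.sum_le_sum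
        intro q hq
        rw [Q3, mem_filter, mem_product, mem_product] at hq
        obtain ⟨⟨q1, q2, q3⟩, n1, n2, n3, n4, n5⟩ := hq
        have e1 := S.T0_card q.1 q.2.1 q.2.2 n3
        have e2 := hT _ q1 _ q2 _ q3 n1 n2 n3 n4 n5
        calc 512 * n ^ 7 * (T0 A nb q.1 q.2.1 q.2.2).card ≤ 512 * n ^ 7 * (D q.1 * A.card) :=
              Nat.mul_le_mul_left _ e1
          _ = (512 * n ^ 7 * D q.1) * A.card := by ring
          _ ≤ _ := Nat.mul_le_mul_right _ e2
    _ = (Q3 D I0).card * (D l0 ^ 2 * A.card) := by simp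
    _ ≤ _ := Nat.mul_le_mul_right _ hQ3card

lemma Setup.core2 [DecidableRel G.Adj] (S : Setup G A r f nb D) (n d : ℕ) (hn : n = d + 1)
    (s : Fin r) (I0 : Finset (Fin r)) (hs : s ∉ I0) (hI0 : I0.card = d)
    (l0 : Fin r) (hl0 : l0 ∈ I0) (hmin : ∀ i ∈ I0, D l0 ≤ D i) (hsmin : D s ≤ D l0)
    (hT : 512 * n ^ 7 * (P3a A nb D I0).card ≤ d ^ 3 * (D l0 ^ 2 * A.card))
    (hbig : 512 * n ^ 7 ≤ D l0) (hsK : 4 * n ≤ D s) (hA : A.Nonempty) :
    ∃ S' : Finset V, S'.Nonempty ∧
      (∀ v ∈ S', d < (S'.filter (fun w => G.Adj v w)).card) ∧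
      ∀ (v : V) (p : G.Walk v v), p.IsCycle → (∀ w ∈ p.support, w ∈ S') → p.length ≠ 6 := by
  classical
  have hnpos : 0 < n := by omega
  have hApos : 0 < A.card := card_pos.2 hA
  -- groups
  set K := 4 * n with hK
  have hKpos : 0 < K := by omega
  set L := D s / K with hL
  have hLpos : 0 < L := Nat.div_pos hsK hKpos
  have hLK : K * L ≤ D s := Nat.mul_div_le _ _
  have hLK2 : D s < 2 * K * L := by
    have h := Nat.lt_mul_div_succ (D s) hKpos
    rw [← hL] at h
    nlinarith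
  choose posb hposinj hposlt using fun b : V => exists_pos (A.filter (fun a => nb a s = b))
  set pos : V → ℕ := fun a => posb (nb a s) a with hpos
  have hposlt' : ∀ a ∈ A, pos a < D s := by
    intro a ha
    have h1 := hposlt (nb a s) a (by rw [mem_filter]; exact ⟨ha, rfl⟩)
    have h2 := S.deg (nb a s) (S.nbA a ha s)
    rw [S.nbf a ha s] at h2
    rwa [h2] at h1
  set grp : V → V × Fin L := fun a =>
    (nb a s, if h : pos a / (2 * K) < L then ⟨pos a / (2 * K), h⟩ else ⟨0, hLpos⟩) with hgrp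
  have hlab : ∀ a ∈ A, pos a / (2 * K) < L := by
    intro a ha
    rw [Nat.div_lt_iff_lt_mul (by omega)]
    have := hposlt' a ha
    calc pos a < D s := this
      _ < 2 * K * L := hLK2
      _ = L * (2 * K) := by ring
  have hgrpfib : ∀ x ∈ A, (A.filter (fun y => grp x = grp y)).card ≤ 2 * K := by
    intro x hx
    have hc : (Finset.Ico (2 * K * (pos x / (2 * K))) (2 * K * (pos x / (2 * K)) + 2 * K)).card =
      2 * K := by rw [Nat.card_Ico]; omega
    rw [← hc]
    apply Finset.card_le_card_of_injOn pos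
    · intro y hy
      rw [mem_coe, mem_filter] at hy
      obtain ⟨hyA, hy⟩ := hy
      have h2 := congrArg (fun q : V × Fin L => q.2.val) hy
      simp only [hgrp, hlab x hx, hlab y hyA, dif_pos] at h2
      rw [mem_coe, mem_Ico, h2]
      refine ⟨Nat.mul_div_le _ _, ?_⟩
      have := Nat.lt_mul_div_succ (pos y) (show 0 < 2 * K by omega)
      calc pos y < 2 * K * (pos y / (2 * K) + 1) := this
        _ = _ := by ring
    · intro y hy z hz hyz
      rw [mem_coe, mem_filter] at hy hz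
      obtain ⟨hyA, hy⟩ := hy
      obtain ⟨hzA, hz⟩ := hz
      have hy1 : nb x s = nb y s := congrArg Prod.fst hy
      have hz1 : nb x s = nb z s := congrArg Prod.fst hz
      simp only [hpos] at hyz
      rw [← hy1, ← hz1] at hyz
      apply hposinj (nb x s) _ _ hyz
      · rw [mem_coe, mem_filter]; exact ⟨hyA, hy1.symm⟩
      · rw [mem_coe, mem_filter]; exact ⟨hzA, hz1.symm⟩
  have hgrp1 : ∀ x y, grp x = grp y → nb x s = nb y s := fun x y h => congrArg Prod.fst h
  have hdiff : ∀ x ∈ A, ∀ y ∈ A, x ≠ y → ∀ i, i ≠ s → nb x i = nb y i → grp x ≠ grp y := by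
    intro x hx y hy hxy i his hi hg
    exact hxy (S.c4 x hx y hy i s his hi (hgrp1 x y hg))
  -- bad triples
  set Qs := (I0 ×ˢ I0).filter (fun q => q.1 ≠ q.2) with hQs
  set P3 := P3a A nb D I0 with hP3a
  set P3b := Qs.biUnion (fun q => (T0 A nb s q.1 q.2).filter (fun t => grp t.1 ≠ grp t.2.1))
    with hP3b
  set P2 := Qs.biUnion (fun q => (T0 A nb s q.1 q.2).filter (fun t => grp t.1 = grp t.2.1))
    with hP2
  have hI0s : ∀ i ∈ I0, i ≠ s := fun i hi h => hs (h ▸ hi)
  have hQscard : Qs.card ≤ d ^ 2 := by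
    calc Qs.card ≤ (I0 ×ˢ I0).card := card_filter_le _ _
      _ = d ^ 2 := by rw [card_product, hI0]; ring
  have hP3acard : 512 * n ^ 7 * P3.card ≤ d ^ 3 * (D l0 ^ 2 * A.card) := hT
  have hP3bcard : 512 * n ^ 7 * P3b.card ≤ d ^ 2 * (D l0 ^ 2 * A.card) := by
    calc 512 * n ^ 7 * P3b.card ≤ 512 * n ^ 7 * ∑ q ∈ Qs,
          ((T0 A nb s q.1 q.2).filter (fun t => grp t.1 ≠ grp t.2.1)).card :=
          Nat.mul_le_mul_left _ card_biUnion_le
      _ = ∑ q ∈ Qs, 512 * n ^ 7 *
          ((T0 A nb s q.1 q.2).filter (fun t => grp t.1 ≠ grp t.2.1)).card := by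
            rw [Finset.mul_sum]
      _ ≤ ∑ q ∈ Qs, D l0 ^ 2 * A.card := by
          apply Finset.sum_le_sum
          intro q hq
          rw [hQs, mem_filter, mem_product] at hq
          have e1 := S.T0_card s q.1 q.2 hq.2
          have e0 : ((T0 A nb s q.1 q.2).filter (fun t => grp t.1 ≠ grp t.2.1)).card ≤
            D s * A.card := (card_filter_le _ _).trans e1
          calc 512 * n ^ 7 * ((T0 A nb s q.1 q.2).filter (fun t => grp t.1 ≠ grp t.2.1)).card
              ≤ D l0 * (D s * A.card) := Nat.mul_le_mul hbig e0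
            _ ≤ D l0 * (D l0 * A.card) :=
              Nat.mul_le_mul_left _ (Nat.mul_le_mul_right _ hsmin)
            _ = _ := by ring
      _ = Qs.card * (D l0 ^ 2 * A.card) := by simp
      _ ≤ _ := Nat.mul_le_mul_right _ hQscard
  have hP2card : P2.card ≤ d ^ 2 * (2 * K * A.card) := by
    calc P2.card ≤ ∑ q ∈ Qs,
          ((T0 A nb s q.1 q.2).filter (fun t => grp t.1 = grp t.2.1)).card := card_biUnion_le
      _ ≤ ∑ q ∈ Qs, 2 * K * A.card := by
          apply Finset.sum_le_sum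
          intro q hq
          rw [hQs, mem_filter, mem_product] at hq
          obtain ⟨_, hjk⟩ := hq
          have h1 := Finset.card_le_mul_card_image (f := fun t : V × V × V => t.1)
            ((T0 A nb s q.1 q.2).filter (fun t => grp t.1 = grp t.2.1)) (2 * K) ?_
          · refine h1.trans (Nat.mul_le_mul_left _ (card_le_card ?_))
            intro x hx
            rw [mem_image] at hx
            obtain ⟨t, ht, rfl⟩ := hx
            rw [mem_filter, T0, mem_filter, mem_product] at ht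
            exact ht.1.1.1
          · intro x hx
            rw [mem_image] at hx
            obtain ⟨t0, ht0, hx0⟩ := hx
            have hxA : x ∈ A := by
              rw [mem_filter, T0, mem_filter, mem_product] at ht0
              rw [← hx0]; exact ht0.1.1.1
            refine le_trans ?_ (hgrpfib x hxA)
            apply Finset.card_le_card_of_injOn (fun t => t.2.1)
            · rintro t ht
              rw [mem_coe, mem_filter] at ht
              obtain ⟨ht, htx⟩ := ht
              rw [mem_filter, T0, mem_filter, mem_product, mem_product] at ht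
              rw [mem_coe, mem_filter]
              refine ⟨ht.1.1.2.1, ?_⟩
              rw [← htx]; exact ht.2
            · rintro ⟨a, b, c⟩ ht ⟨a', b', c'⟩ ht' hbb
              simp only [mem_coe, mem_filter, T0, mem_product] at ht ht' hbb
              obtain ⟨⟨⟨⟨ha, hb, hc⟩, _, _, _, _, hj, hk⟩, _⟩, rfl⟩ := ht
              obtain ⟨⟨⟨⟨ha', hb', hc'⟩, _, _, _, _, hj', hk'⟩, _⟩, haa⟩ := ht'
              subst haa
              subst hbb
              have : c = c' := S.c4 c hc c' hc' q.1 q.2 hjk (by rw [← hj, ← hj'])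
                (by rw [← hk, ← hk'])
              rw [this]
      _ = Qs.card * (2 * K * A.card) := by simp
      _ ≤ _ := Nat.mul_le_mul_right _ hQscard
  -- the number of colours
  set M := D l0 / (4 * n ^ 2) with hM
  have h4n : 0 < 4 * n ^ 2 := by positivity
  have hM1 : 4 * n ^ 2 * M ≤ D l0 := Nat.mul_div_le _ _
  have hMbig : 64 * n ^ 3 ≤ M := by
    rw [hM, Nat.le_div_iff_mul_le h4n]
    calc 64 * n ^ 3 * (4 * n ^ 2) = 256 * n ^ 5 := by ring
      _ ≤ 512 * n ^ 7 := by
          have : n ^ 5 ≤ n ^ 7 := Nat.pow_le_pow_right hnpos (by omega)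
          omega
      _ ≤ D l0 := hbig
  have hMpos : 0 < M := lt_of_lt_of_le (by positivity) hMbig
  have hM2 : D l0 ≤ 8 * n ^ 2 * M := by
    have h := Nat.lt_mul_div_succ (D l0) h4n
    rw [← hM] at h
    have : 4 * n ^ 2 * (M + 1) ≤ 8 * n ^ 2 * M := by
      calc 4 * n ^ 2 * (M + 1) ≤ 4 * n ^ 2 * (M + M) := Nat.mul_le_mul_left _ (by omega)
        _ = _ := by ring
    omega
  have hP3 : 8 * (P3 ∪ P3b).card ≤ M ^ 2 * A.card := by
    have h1 : D l0 ^ 2 ≤ 64 * n ^ 4 * M ^ 2 := by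
      calc D l0 ^ 2 ≤ (8 * n ^ 2 * M) ^ 2 := Nat.pow_le_pow_left hM2 2
        _ = _ := by ring
    have h2 : 512 * n ^ 7 * (P3 ∪ P3b).card ≤ n ^ 3 * (64 * n ^ 4 * M ^ 2 * A.card) := by
      calc 512 * n ^ 7 * (P3 ∪ P3b).card ≤ 512 * n ^ 7 * (P3.card + P3b.card) :=
            Nat.mul_le_mul_left _ (card_union_le _ _)
        _ = 512 * n ^ 7 * P3.card + 512 * n ^ 7 * P3b.card := by ring
        _ ≤ d ^ 3 * (D l0 ^ 2 * A.card) + d ^ 2 * (D l0 ^ 2 * A.card) :=
            Nat.add_le_add hP3acard hP3bcard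
        _ = (d ^ 2 * n) * (D l0 ^ 2 * A.card) := by rw [hn]; ring
        _ ≤ n ^ 3 * (D l0 ^ 2 * A.card) := by
            apply Nat.mul_le_mul_right
            calc d ^ 2 * n ≤ n ^ 2 * n := Nat.mul_le_mul_right _
                  (Nat.pow_le_pow_left (by omega) 2)
              _ = _ := by ring
        _ ≤ _ := Nat.mul_le_mul_left _ (Nat.mul_le_mul_right _ h1)
    have h3 : (64 * n ^ 7) * (8 * (P3 ∪ P3b).card) ≤ (64 * n ^ 7) * (M ^ 2 * A.card) := by
      calc (64 * n ^ 7) * (8 * (P3 ∪ P3b).card) = 512 * n ^ 7 * (P3 ∪ P3b).card := by ring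
        _ ≤ _ := h2
        _ = _ := by ring
    exact Nat.le_of_mul_le_mul_left h3 (by positivity)
  have hP2' : 8 * (M * P2.card) ≤ M ^ 2 * A.card := by
    have h1 : P2.card ≤ 8 * n ^ 3 * A.card := by
      calc P2.card ≤ d ^ 2 * (2 * K * A.card) := hP2card
        _ ≤ n ^ 2 * (2 * K * A.card) :=
            Nat.mul_le_mul_right _ (Nat.pow_le_pow_left (by omega) 2)
        _ = _ := by rw [hK]; ring
    calc 8 * (M * P2.card) ≤ 8 * (M * (8 * n ^ 3 * A.card)) :=
          Nat.mul_le_mul_left _ (Nat.mul_le_mul_left _ h1)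
      _ = M * (64 * n ^ 3) * A.card := by ring
      _ ≤ M * M * A.card := Nat.mul_le_mul_right _ (Nat.mul_le_mul_left _ hMbig)
      _ = _ := by ring
  -- labels and the other classes
  set Bs := (univ : Finset V).filter (fun b => b ∉ A ∧ f b = s) with hBs
  set Λ : Finset (V × Fin L) := Bs ×ˢ univ with hΛ
  have hΛcard : 4 * (d * Λ.card) ≤ A.card := by
    have h1 := S.class_card s
    rw [← hBs] at h1
    calc 4 * (d * Λ.card) = 4 * d * L * Bs.card := by
          rw [hΛ, card_product, card_univ, Fintype.card_fin]; ring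
      _ ≤ K * L * Bs.card := by
          apply Nat.mul_le_mul_right
          apply Nat.mul_le_mul_right
          omega
      _ ≤ D s * Bs.card := Nat.mul_le_mul_right _ hLK
      _ = A.card := by rw [← h1]; ring
  set BI := (univ : Finset V).filter (fun b => b ∉ A ∧ f b ∈ I0) with hBI
  have hBIcard : D l0 * BI.card ≤ d * A.card := by
    have h1 : BI.card = ∑ i ∈ I0, (univ.filter (fun b => b ∉ A ∧ f b = i)).card := by
      rw [Finset.card_eq_sum_card_fiberwise (f := f) (t := I0)]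
      · apply Finset.sum_congr rfl
        intro i hi
        congr 1
        ext b
        simp only [hBI, mem_filter, mem_univ, true_and]
        constructor
        · rintro ⟨⟨h1, _⟩, h3⟩; exact ⟨h1, h3⟩
        · rintro ⟨h1, h2⟩; exact ⟨⟨h1, by rw [h2]; exact hi⟩, h2⟩
      · intro b hb
        have hb' : b ∈ BI := hb
        rw [hBI, mem_filter] at hb'
        exact hb'.2.2
    calc D l0 * BI.card = ∑ i ∈ I0, D l0 * (univ.filter (fun b => b ∉ A ∧ f b = i)).card := by
          rw [h1, Finset.mul_sum]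
      _ ≤ ∑ i ∈ I0, A.card := by
          apply Finset.sum_le_sum
          intro i hi
          rw [← S.class_card i, Nat.mul_comm]
          exact Nat.mul_le_mul_left _ (hmin i hi)
      _ = d * A.card := by simp [hI0]
  have hβ : 4 * (M * (d * BI.card)) ≤ A.card := by
    have h1 : n ^ 2 * (4 * (M * (d * BI.card))) ≤ n ^ 2 * A.card := by
      calc n ^ 2 * (4 * (M * (d * BI.card))) = d * ((4 * n ^ 2 * M) * BI.card) := by ring
        _ ≤ d * (D l0 * BI.card) := Nat.mul_le_mul_left _ (Nat.mul_le_mul_right _ hM1)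
        _ ≤ d * (d * A.card) := Nat.mul_le_mul_left _ hBIcard
        _ = d ^ 2 * A.card := by ring
        _ ≤ _ := Nat.mul_le_mul_right _ (Nat.pow_le_pow_left (by omega) 2)
    exact Nat.le_of_mul_le_mul_left h1 (by positivity)
  have hcount : M ^ 2 * (d * Λ.card + M * (d * BI.card)) + (P3 ∪ P3b).card + M * P2.card <
      M ^ 2 * A.card := by
    have hM2pos : 0 < M ^ 2 := by positivity
    have e1 : 4 * (M ^ 2 * (d * Λ.card + M * (d * BI.card))) ≤ 2 * (M ^ 2 * A.card) := by
      calc 4 * (M ^ 2 * (d * Λ.card + M * (d * BI.card))) =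
            M ^ 2 * (4 * (d * Λ.card) + 4 * (M * (d * BI.card))) := by ring
        _ ≤ M ^ 2 * (A.card + A.card) := Nat.mul_le_mul_left _ (Nat.add_le_add hΛcard hβ)
        _ = _ := by ring
    have e2 : 0 < M ^ 2 * A.card := by positivity
    omega
  have h3' : ∀ t ∈ P3 ∪ P3b,
      grp t.1 ≠ grp t.2.1 ∧ grp t.1 ≠ grp t.2.2 ∧ grp t.2.1 ≠ grp t.2.2 := by
    intro t ht
    rcases mem_union.1 ht with ht | ht
    · rw [hP3a, P3a, mem_biUnion] at ht
      obtain ⟨q, hq, htq⟩ := ht
      rw [Q3, mem_filter, mem_product, mem_product] at hq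
      obtain ⟨⟨q1, q2, q3⟩, _⟩ := hq
      rw [T0, mem_filter, mem_product, mem_product] at htq
      obtain ⟨⟨x1, x2, x3⟩, m1, m2, m3, r1, r2, r3⟩ := htq
      exact ⟨hdiff _ x1 _ x2 m1 _ (hI0s _ q1) r1, hdiff _ x1 _ x3 m2 _ (hI0s _ q2) r2,
        hdiff _ x2 _ x3 m3 _ (hI0s _ q3) r3⟩
    · rw [hP3b, mem_biUnion] at ht
      obtain ⟨q, hq, htq⟩ := ht
      rw [hQs, mem_filter, mem_product] at hq
      obtain ⟨⟨q1, q2⟩, _⟩ := hq
      rw [mem_filter, T0, mem_filter, mem_product, mem_product] at htq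
      obtain ⟨⟨⟨x1, x2, x3⟩, m1, m2, m3, r1, r2, r3⟩, hg⟩ := htq
      exact ⟨hg, hdiff _ x1 _ x3 m2 _ (hI0s _ q1) r2, hdiff _ x2 _ x3 m3 _ (hI0s _ q2) r3⟩
  have h2' : ∀ t ∈ P2, grp t.1 ≠ grp t.2.2 := by
    intro t ht
    rw [hP2, mem_biUnion] at ht
    obtain ⟨q, hq, htq⟩ := ht
    rw [hQs, mem_filter, mem_product] at hq
    obtain ⟨⟨q1, q2⟩, _⟩ := hq
    rw [mem_filter, T0, mem_filter, mem_product, mem_product] at htq
    obtain ⟨⟨⟨x1, x2, x3⟩, m1, m2, m3, r1, r2, r3⟩, hg⟩ := htq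
    exact hdiff _ x1 _ x3 m2 _ (hI0s _ q1) r2
  obtain ⟨g, c, A', hA'A, hA'g, hA'card, hA'3, hA'2⟩ :=
    coloring2 M hMpos A grp (P3 ∪ P3b) P2 h3' h2' Λ d BI.card hcount
  set Bs' := Bs.filter (fun b => ∃ t : Fin L, g (b, t) = c) with hBs'
  have hBs'card : Bs'.card ≤ (Λ.filter (fun l => g l = c)).card := by
    have : Bs' ⊆ (Λ.filter (fun l => g l = c)).image Prod.fst := by
      intro b hb
      rw [hBs', mem_filter] at hb
      obtain ⟨hb, t, ht⟩ := hb
      rw [mem_image]
      refine ⟨(b, t), ?_, rfl⟩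
      rw [mem_filter, hΛ, mem_product]
      exact ⟨⟨hb, mem_univ _⟩, ht⟩
    exact (card_le_card this).trans card_image_le
  set H0 := A' ∪ (BI ∪ Bs') with hH0
  have hE : n * A'.card ≤ (eSet G A H0).card := by
    have hins : (insert s I0).card = n := by rw [card_insert_of_notMem hs, hI0, hn]
    rw [← hins, Nat.mul_comm, ← card_product]
    apply Finset.card_le_card_of_injOn (fun p : V × Fin r => (p.1, nb p.1 p.2))
    · rintro ⟨a, i⟩ hp
      rw [mem_coe, mem_product] at hp
      obtain ⟨ha, hi⟩ := hp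
      simp only at ha hi
      have haA := hA'A ha
      simp only [eSet, mem_coe, mem_filter, mem_product, hH0, mem_union]
      refine ⟨⟨Or.inl ha, Or.inr ?_⟩, haA, S.nbA a haA i, S.nbadj a haA i⟩
      rcases mem_insert.1 hi with rfl | hi
      · right
        rw [hBs', mem_filter, hBs, mem_filter]
        refine ⟨⟨mem_univ _, S.nbA a haA _, S.nbf a haA _⟩, (grp a).2, ?_⟩
        exact hA'g a ha
      · left
        rw [hBI, mem_filter]
        exact ⟨mem_univ _, S.nbA a haA i, by rw [S.nbf a haA i]; exact hi⟩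
    · rintro ⟨a, i⟩ hp ⟨a', i'⟩ hp' heq
      rw [mem_coe, mem_product] at hp hp'
      simp only [Prod.mk.injEq] at heq
      obtain ⟨h1, h2⟩ := heq
      subst h1
      have haA := hA'A hp.1
      have : i = i' := by rw [← S.nbf a haA i, ← S.nbf a haA i', h2]
      rw [this]
  have hext : d * H0.card < (eSet G A H0).card := by
    have h1 : H0.card ≤ A'.card + (BI.card + Bs'.card) :=
      (card_union_le _ _).trans (Nat.add_le_add_left (card_union_le _ _) _)
    have h2 : d * H0.card ≤ d * (A'.card + (BI.card + Bs'.card)) := Nat.mul_le_mul_left _ h1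
    have h3 : d * Bs'.card ≤ d * (Λ.filter (fun l => g l = c)).card :=
      Nat.mul_le_mul_left _ hBs'card
    have h4 : d * (A'.card + (BI.card + Bs'.card)) = d * A'.card + d * BI.card + d * Bs'.card := by
      ring
    have h5 : n * A'.card = d * A'.card + A'.card := by rw [hn]; ring
    omega
  obtain ⟨S', hS'sub, hS'ne, hS'deg⟩ := extract G A d _ _ rfl hext
  refine ⟨S', hS'ne, hS'deg, ?_⟩
  intro v p hp hsup hlen
  have hadj : ∀ i, i < 6 → G.Adj (p.getVert i) (p.getVert (i + 1)) := by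
    intro i hi
    exact p.adj_getVert_succ (by omega)
  have hinj := hp.getVert_injOn
  have hne : ∀ i j, 1 ≤ i → i ≤ 6 → 1 ≤ j → j ≤ 6 → i ≠ j → p.getVert i ≠ p.getVert j := by
    intro i j hi hi' hj hj' hij heq
    refine hij (hinj ?_ ?_ heq)
    · show 1 ≤ i ∧ i ≤ p.length
      omega
    · show 1 ≤ j ∧ j ≤ p.length
      omega
  have h06 : p.getVert 6 = p.getVert 0 := by
    rw [p.getVert_zero, ← hlen, p.getVert_length]
  have hmem : ∀ i, p.getVert i ∈ S' := fun i => hsup _ (p.getVert_mem_support i)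
  -- the hexagon lemma
  have hex : ∀ a1 b1 a2 b2 a3 b3 : V, a1 ∈ A → a2 ∈ A → a3 ∈ A → a1 ∈ S' → a2 ∈ S' → a3 ∈ S' →
      b1 ∈ S' → b2 ∈ S' → b3 ∈ S' → a1 ≠ a2 → a1 ≠ a3 → a2 ≠ a3 → b1 ≠ b2 → b1 ≠ b3 → b2 ≠ b3 →
      G.Adj a1 b1 → G.Adj a2 b1 → G.Adj a2 b2 → G.Adj a3 b2 → G.Adj a3 b3 → G.Adj a1 b3 →
      False := by
    intro a1 b1 a2 b2 a3 b3 ha1 ha2 ha3 sa1 sa2 sa3 sb1 sb2 sb3 n12 n13 n23 m12 m13 m23
      e11 e21 e22 e32 e33 e13
    have inA' : ∀ a, a ∈ A → a ∈ S' → a ∈ A' := by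
      intro a ha hs
      rcases mem_union.1 (hS'sub hs) with h | h
      · exact h
      · rcases mem_union.1 h with h | h
        · rw [hBI, mem_filter] at h; exact absurd ha h.2.1
        · rw [hBs', mem_filter, hBs, mem_filter] at h; exact absurd ha h.1.2.1
    have inB : ∀ b, b ∉ A → b ∈ S' → f b = s ∨ f b ∈ I0 := by
      intro b hb hs
      rcases mem_union.1 (hS'sub hs) with h | h
      · exact absurd (hA'A h) hb
      · rcases mem_union.1 h with h | h
        · rw [hBI, mem_filter] at h; exact Or.inr h.2.2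
        · rw [hBs', mem_filter, hBs, mem_filter] at h; exact Or.inl h.1.2.2
    have nb1 : b1 ∉ A := (S.bip _ _ e11).1 ha1
    have nb2 : b2 ∉ A := (S.bip _ _ e22).1 ha2
    have nb3 : b3 ∉ A := (S.bip _ _ e33).1 ha3
    have i1 := inB b1 nb1 sb1
    have i2 := inB b2 nb2 sb2
    have i3 := inB b3 nb3 sb3
    have u11 := S.nbu a1 ha1 b1 nb1 e11
    have u21 := S.nbu a2 ha2 b1 nb1 e21
    have u22 := S.nbu a2 ha2 b2 nb2 e22
    have u32 := S.nbu a3 ha3 b2 nb2 e32
    have u33 := S.nbu a3 ha3 b3 nb3 e33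
    have u13 := S.nbu a1 ha1 b3 nb3 e13
    have f12 : f b1 ≠ f b2 := by
      intro h; apply m12; rw [← u21, ← u22, h]
    have f23 : f b2 ≠ f b3 := by
      intro h; apply m23; rw [← u32, ← u33, h]
    have f13 : f b1 ≠ f b3 := by
      intro h; apply m13; rw [← u11, ← u13, h]
    have ia1 := inA' a1 ha1 sa1
    have ia2 := inA' a2 ha2 sa2
    have ia3 := inA' a3 ha3 sa3
    have use : ∀ (x y z : V) (i j k : Fin r), x ∈ A' → y ∈ A' → z ∈ A' →
        i ∈ I0 → j ∈ I0 → k ∈ I0 →
        x ≠ y → x ≠ z → y ≠ z → i ≠ j → i ≠ k → j ≠ k → D i ≤ D j → D i ≤ D k →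
        nb x i = nb y i → nb x j = nb z j → nb y k = nb z k → False := by
      intro x y z i j k hx hy hz hi hj hk n1 n2 n3 q1 q2 q3 d1 d2 r1 r2 r3
      apply hA'3 (x, y, z) _ ⟨hx, hy, hz⟩
      apply mem_union_left
      rw [hP3a, P3a, mem_biUnion]
      refine ⟨(i, j, k), ?_, ?_⟩
      · rw [Q3, mem_filter, mem_product, mem_product]
        exact ⟨⟨hi, hj, hk⟩, q1, q2, q3, d1, d2⟩
      · rw [T0, mem_filter, mem_product, mem_product]
        exact ⟨⟨hA'A hx, hA'A hy, hA'A hz⟩, n1, n2, n3, r1, r2, r3⟩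
    have uses : ∀ (x y z : V) (i j k : Fin r), x ∈ A' → y ∈ A' → z ∈ A' →
        i = s → (j = s ∨ j ∈ I0) → (k = s ∨ k ∈ I0) →
        x ≠ y → x ≠ z → y ≠ z → i ≠ j → i ≠ k → j ≠ k →
        nb x i = nb y i → nb x j = nb z j → nb y k = nb z k → False := by
      intro x y z i j k hx hy hz hi hj hk n1 n2 n3 q1 q2 q3 r1 r2 r3
      subst hi
      have hj' : j ∈ I0 := by
        rcases hj with h | h
        · exact absurd h.symm q1
        · exact h
      have hk' : k ∈ I0 := by
        rcases hk with h | h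
        · exact absurd h.symm q2
        · exact h
      by_cases hg : grp x = grp y
      · apply hA'2 (x, y, z) _ ⟨hx, hy, hz⟩
        rw [hP2, mem_biUnion]
        refine ⟨(j, k), ?_, ?_⟩
        · rw [hQs, mem_filter, mem_product]
          exact ⟨⟨hj', hk'⟩, q3⟩
        · rw [mem_filter, T0, mem_filter, mem_product, mem_product]
          exact ⟨⟨⟨hA'A hx, hA'A hy, hA'A hz⟩, n1, n2, n3, r1, r2, r3⟩, hg⟩
      · apply hA'3 (x, y, z) _ ⟨hx, hy, hz⟩
        apply mem_union_right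
        rw [hP3b, mem_biUnion]
        refine ⟨(j, k), ?_, ?_⟩
        · rw [hQs, mem_filter, mem_product]
          exact ⟨⟨hj', hk'⟩, q3⟩
        · rw [mem_filter, T0, mem_filter, mem_product, mem_product]
          exact ⟨⟨⟨hA'A hx, hA'A hy, hA'A hz⟩, n1, n2, n3, r1, r2, r3⟩, hg⟩
    by_cases s1 : f b1 = s
    · exact uses a1 a2 a3 (f b1) (f b3) (f b2) ia1 ia2 ia3 s1 i3 i2 n12 n13 n23 f13 f12
          f23.symm (by rw [u11, u21]) (by rw [u13, u33]) (by rw [u22, u32])
    by_cases s2 : f b2 = s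
    · exact uses a2 a3 a1 (f b2) (f b1) (f b3) ia2 ia3 ia1 s2 i1 i3 n23 n12.symm n13.symm
          f12.symm f23 f13 (by rw [u22, u32]) (by rw [u21, u11]) (by rw [u33, u13])
    by_cases s3 : f b3 = s
    · exact uses a3 a1 a2 (f b3) (f b2) (f b1) ia3 ia1 ia2 s3 i2 i1 n13.symm n23.symm n12
          f23.symm f13.symm f12.symm (by rw [u33, u13]) (by rw [u32, u22])
          (by rw [u11, u21])
    have i1 : f b1 ∈ I0 := i1.resolve_left s1
    have i2 : f b2 ∈ I0 := i2.resolve_left s2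
    have i3 : f b3 ∈ I0 := i3.resolve_left s3
    rcases le_total (D (f b1)) (D (f b2)) with h12 | h12
    · rcases le_total (D (f b1)) (D (f b3)) with h13 | h13
      · exact use a1 a2 a3 (f b1) (f b3) (f b2) ia1 ia2 ia3 i1 i3 i2 n12 n13 n23 f13 f12
          f23.symm h13 h12 (by rw [u11, u21]) (by rw [u13, u33]) (by rw [u22, u32])
      · exact use a3 a1 a2 (f b3) (f b2) (f b1) ia3 ia1 ia2 i3 i2 i1 n13.symm n23.symm n12
          f23.symm f13.symm f12.symm (h13.trans h12) h13 (by rw [u33, u13]) (by rw [u32, u22])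
          (by rw [u11, u21])
    · rcases le_total (D (f b2)) (D (f b3)) with h23 | h23
      · exact use a2 a3 a1 (f b2) (f b1) (f b3) ia2 ia3 ia1 i2 i1 i3 n23 n12.symm n13.symm
          f12.symm f23 f13 h12 h23 (by rw [u22, u32]) (by rw [u21, u11]) (by rw [u33, u13])
      · exact use a3 a1 a2 (f b3) (f b2) (f b1) ia3 ia1 ia2 i3 i2 i1 n13.symm n23.symm n12
          f23.symm f13.symm f12.symm h23 (h23.trans h12) (by rw [u33, u13]) (by rw [u32, u22])
          (by rw [u11, u21])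
  have a01 := hadj 0 (by omega)
  have a12 := hadj 1 (by omega)
  have a23 := hadj 2 (by omega)
  have a34 := hadj 3 (by omega)
  have a45 := hadj 4 (by omega)
  have a56 := hadj 5 (by omega)
  simp only [Nat.reduceAdd, zero_add] at a01 a12 a23 a34 a45 a56
  rw [← h06] at a01
  by_cases h1 : p.getVert 1 ∈ A
  · have h2 : p.getVert 2 ∉ A := (S.bip _ _ a12).1 h1
    have h3 : p.getVert 3 ∈ A := by
      by_contra h; exact h2 ((S.bip _ _ a23).2 h)
    have h4 : p.getVert 4 ∉ A := (S.bip _ _ a34).1 h3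
    have h5 : p.getVert 5 ∈ A := by
      by_contra h; exact h4 ((S.bip _ _ a45).2 h)
    exact hex (p.getVert 1) (p.getVert 2) (p.getVert 3) (p.getVert 4) (p.getVert 5)
      (p.getVert 6) h1 h3 h5 (hmem _) (hmem _) (hmem _) (hmem _) (hmem _) (hmem _)
      (hne 1 3 (by omega) (by omega) (by omega) (by omega) (by omega))
      (hne 1 5 (by omega) (by omega) (by omega) (by omega) (by omega))
      (hne 3 5 (by omega) (by omega) (by omega) (by omega) (by omega))
      (hne 2 4 (by omega) (by omega) (by omega) (by omega) (by omega))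
      (hne 2 6 (by omega) (by omega) (by omega) (by omega) (by omega))
      (hne 4 6 (by omega) (by omega) (by omega) (by omega) (by omega))
      a12 a23.symm a34 a45.symm a56 a01.symm
  · have h2 : p.getVert 2 ∈ A := by
      by_contra h; exact h1 ((S.bip _ _ a12).2 h)
    have h3 : p.getVert 3 ∉ A := (S.bip _ _ a23).1 h2
    have h4 : p.getVert 4 ∈ A := by
      by_contra h; exact h3 ((S.bip _ _ a34).2 h)
    have h5 : p.getVert 5 ∉ A := (S.bip _ _ a45).1 h4
    have h6 : p.getVert 6 ∈ A := by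
      by_contra h; exact h5 ((S.bip _ _ a56).2 h)
    exact hex (p.getVert 2) (p.getVert 3) (p.getVert 4) (p.getVert 5) (p.getVert 6)
      (p.getVert 1) h2 h4 h6 (hmem _) (hmem _) (hmem _) (hmem _) (hmem _) (hmem _)
      (hne 2 4 (by omega) (by omega) (by omega) (by omega) (by omega))
      (hne 2 6 (by omega) (by omega) (by omega) (by omega) (by omega))
      (hne 4 6 (by omega) (by omega) (by omega) (by omega) (by omega))
      (hne 3 5 (by omega) (by omega) (by omega) (by omega) (by omega))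
      (hne 3 1 (by omega) (by omega) (by omega) (by omega) (by omega))
      (hne 5 1 (by omega) (by omega) (by omega) (by omega) (by omega))
      a23 a34.symm a45 a56.symm a01 a12.symm

end

end Pool.Agent.R578.SNR
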