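import Pool.Agent.R578.SNR.Core2

set_option autoImplicit false

namespace Pool.Agent.R578.SNR

open Finset

/-- box of a number: two-fold iterated logarithm, refined once -/
def box (x : ℕ) : ℕ × ℕ :=
  (Nat.log 2 (Nat.log 2 x), if 2 * Nat.log 2 x < 3 * 2 ^ Nat.log 2 (Nat.log 2 x) then 0 else 1)

lemma box_close (x y : ℕ) (hx : 4 ≤ x) (hy : 4 ≤ y) (h : box x = box y) :
    x ^ 2 ≤ 2 * y ^ 3 := by
  have h1 : Nat.log 2 (Nat.log 2 x) = Nat.log 2 (Nat.log 2 y) := congrArg Prod.fst h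
  have h2 := congrArg Prod.snd h
  simp only [box] at h2
  set a := Nat.log 2 x with ha
  set b := Nat.log 2 y with hb
  have ha2 : 2 ≤ a := by
    rw [ha]; exact Nat.le_log_of_pow_le (by norm_num) (by simpa using hx)
  have hb2 : 2 ≤ b := by
    rw [hb]; exact Nat.le_log_of_pow_le (by norm_num) (by simpa using hy)
  have hal : 2 ^ Nat.log 2 a ≤ a := Nat.pow_log_le_self 2 (by omega)
  have hbl : 2 ^ Nat.log 2 b ≤ b := Nat.pow_log_le_self 2 (by omega)
  have hau : a < 2 ^ (Nat.log 2 a + 1) := Nat.lt_pow_succ_log_self (by norm_num) a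
  rw [← h1] at hbl h2
  rw [pow_succ] at hau
  have key : 2 * a + 1 ≤ 3 * b := by
    set P := 2 ^ Nat.log 2 a
    by_cases c1 : 2 * a < 3 * P
    · omega
    · rw [if_neg c1] at h2
      by_cases c2 : 2 * b < 3 * P
      · rw [if_pos c2] at h2; omega
      · omega
  have hxu : x < 2 ^ (a + 1) := Nat.lt_pow_succ_log_self (by norm_num) x
  have hyl : 2 ^ b ≤ y := Nat.pow_log_le_self 2 (by omega)
  calc x ^ 2 ≤ (2 ^ (a + 1)) ^ 2 := Nat.pow_le_pow_left hxu.le 2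
    _ = 2 ^ (2 * a + 2) := by rw [← pow_mul]; congr 1; ring
    _ ≤ 2 ^ (3 * b + 1) := Nat.pow_le_pow_right (by norm_num) (by omega)
    _ = 2 * (2 ^ b) ^ 3 := by rw [← pow_mul]; ring
    _ ≤ 2 * y ^ 3 := Nat.mul_le_mul_left _ (Nat.pow_le_pow_left hyl 3)

lemma sq_of_cube (c x y : ℕ) (h : x ^ 2 ≤ 2 * y ^ 3) (hy : 2 * c ^ 2 ≤ y) : c * x ≤ y ^ 2 := by
  have h1 : (c * x) ^ 2 ≤ (y ^ 2) ^ 2 := by
    calc (c * x) ^ 2 = c ^ 2 * x ^ 2 := by ring
      _ ≤ c ^ 2 * (2 * y ^ 3) := Nat.mul_le_mul_left _ h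
      _ = (2 * c ^ 2) * y ^ 3 := by ring
      _ ≤ y * y ^ 3 := Nat.mul_le_mul_right _ hy
      _ = _ := by ring
  exact (Nat.pow_le_pow_iff_left (by norm_num)).1 h1

lemma setup_of {V : Type} [Fintype V] [DecidableEq V] (G : SimpleGraph V) [DecidableRel G.Adj]
    (A : Finset V) (r : ℕ) (f : V → Fin r)
    (h1 : ∀ u v : V, G.Adj u v → (u ∈ A ↔ v ∉ A))
    (h2 : ∀ a ∈ A, ∀ i : Fin r, ∃! b : V, b ∉ A ∧ f b = i ∧ G.Adj a b)
    (h3 : ∀ b c : V, b ∉ A → c ∉ A → f b = f c → G.degree b = G.degree c)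
    (h5 : ∀ (v : V) (p : G.Walk v v), p.IsCycle → p.length ≠ 4)
    (nb : V → Fin r → V)
    (hnb : ∀ a ∈ A, ∀ i : Fin r, nb a i ∉ A ∧ f (nb a i) = i ∧ G.Adj a (nb a i))
    (a0 : V) (ha0 : a0 ∈ A) :
    Setup G A r f nb (fun i => G.degree (nb a0 i)) := by
  have hnbu : ∀ a ∈ A, ∀ b, b ∉ A → G.Adj a b → nb a (f b) = b := by
    intro a ha b hb hab
    exact (h2 a ha (f b)).unique (hnb a ha (f b)) ⟨hb, rfl, hab⟩
  refine ⟨h1, fun a ha i => (hnb a ha i).1, fun a ha i => (hnb a ha i).2.1,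
    fun a ha i => (hnb a ha i).2.2, hnbu, ?_, ?_⟩
  · intro b hb
    have e1 : A.filter (fun a => nb a (f b) = b) = G.neighborFinset b := by
      ext a
      rw [mem_filter, SimpleGraph.mem_neighborFinset]
      constructor
      · rintro ⟨ha, hab⟩
        have := (hnb a ha (f b)).2.2
        rw [hab] at this
        exact this.symm
      · intro hba
        have ha : a ∈ A := by
          by_contra h
          exact hb ((h1 b a hba).2 h)
        exact ⟨ha, hnbu a ha b hb hba.symm⟩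
    rw [e1, SimpleGraph.card_neighborFinset_eq_degree]
    exact h3 _ _ hb (hnb a0 ha0 (f b)).1 (hnb a0 ha0 (f b)).2.1.symm
  · intro x hx y hy j k hjk hj hk
    by_contra hxy
    have e1 := (hnb x hx j).2.2
    have e2 := (hnb y hy j).2.2
    have e3 := (hnb y hy k).2.2
    have e4 := (hnb x hx k).2.2
    rw [← hj] at e2
    rw [← hk] at e3
    refine four_cycle G h5 e1 e2.symm e3 e4.symm hxy ?_
    intro h
    apply hjk
    rw [← (hnb x hx j).2.1, ← (hnb x hx k).2.1, h]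

theorem main (d : ℕ) (hd : 1 ≤ d) (V : Type) [Fintype V] [DecidableEq V] [Nonempty V]
    (G : SimpleGraph V) [DecidableRel G.Adj] (A : Finset V) (r : ℕ) (f : V → Fin r)
    (h1 : ∀ u v : V, G.Adj u v → (u ∈ A ↔ v ∉ A))
    (h2 : ∀ a ∈ A, ∀ i : Fin r, ∃! b : V, b ∉ A ∧ f b = i ∧ G.Adj a b)
    (h3 : ∀ b c : V, b ∉ A → c ∉ A → f b = f c → G.degree b = G.degree c)
    (h4 : ∀ v : V, 2 * (512 * (d + 1) ^ 7) ^ 2 + 4 * (d + 1) + 1 ≤ G.degree v)
    (h5 : ∀ (v : V) (p : G.Walk v v), p.IsCycle → p.length ≠ 4)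
    (h6 : d ≤ 3 ∨ (∀ v : V, G.degree v ≤ 2 ^ (2 ^ (r / (4 * d + 4)))) ∨
      ∃ (s : Fin r) (I : Finset (Fin r)), s ∉ I ∧ I.card = d ∧
        (∀ b c : V, b ∉ A → c ∉ A → f b = s → f c ∈ I → G.degree b ≤ G.degree c) ∧
        ∀ c : V, c ∉ A → f c ∈ I →
          512 * (d + 1) ^ 7 *
            Set.ncard {t : V × V × V | t.1 ∈ A ∧ t.2.1 ∈ A ∧ t.2.2 ∈ A ∧
              t.1 ≠ t.2.1 ∧ t.1 ≠ t.2.2 ∧ t.2.1 ≠ t.2.2 ∧
              ∃ b₁ b₂ b₃ : V, f b₁ ∈ I ∧ f b₂ ∈ I ∧ f b₃ ∈ I ∧ b₁ ≠ b₂ ∧ b₁ ≠ b₃ ∧ b₂ ≠ b₃ ∧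
                G.Adj t.1 b₁ ∧ G.Adj t.2.1 b₁ ∧ G.Adj t.2.1 b₂ ∧ G.Adj t.2.2 b₂ ∧
                G.Adj t.2.2 b₃ ∧ G.Adj t.1 b₃} ≤ G.degree c ^ 2 * A.card) :
    ∃ S : Finset V, S.Nonempty ∧
      (∀ v ∈ S, d < (S.filter (fun w => G.Adj v w)).card) ∧
      ∀ (v : V) (p : G.Walk v v), p.IsCycle → (∀ w ∈ p.support, w ∈ S) → p.length ≠ 6 := by
  classical
  choose! nb hnb using fun a (ha : a ∈ A) (i : Fin r) => (h2 a ha i).exists
  -- a vertex of A
  obtain ⟨a0, ha0⟩ : ∃ a0, a0 ∈ A := by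
    obtain ⟨v0⟩ := (inferInstance : Nonempty V)
    by_cases hv : v0 ∈ A
    · exact ⟨v0, hv⟩
    · have hpos : 0 < G.degree v0 := by have := h4 v0; omega
      rw [SimpleGraph.degree_pos_iff_exists_adj] at hpos
      obtain ⟨w, hw⟩ := hpos
      refine ⟨w, ?_⟩
      by_contra h
      exact hv ((h1 v0 w hw).2 h)
  set D : Fin r → ℕ := fun i => G.degree (nb a0 i) with hD
  have S : Setup G A r f nb D := setup_of G A r f h1 h2 h3 h5 nb hnb a0 ha0
  have hDbig : ∀ i, 2 * (512 * (d + 1) ^ 7) ^ 2 + 4 * (d + 1) + 1 ≤ D i := fun i => h4 _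
  have hr : 4 * (d + 1) + 1 ≤ r := by
    have e1 : G.degree a0 ≤ r := by
      rw [← SimpleGraph.card_neighborFinset_eq_degree]
      calc (G.neighborFinset a0).card ≤ (univ : Finset (Fin r)).card := by
            apply Finset.card_le_card_of_injOn f (fun _ _ => mem_coe.2 (mem_univ _))
            intro b hb c hc hbc
            rw [mem_coe, SimpleGraph.mem_neighborFinset] at hb hc
            rw [← S.nbu a0 ha0 b ((h1 _ _ hb).1 ha0) hb, ← S.nbu a0 ha0 c ((h1 _ _ hc).1 ha0) hc,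
              hbc]
        _ = r := by simp
    have e2 := h4 a0
    omega
  have hc0 : 512 * (d + 1) ^ 7 ≤ 2 * (512 * (d + 1) ^ 7) ^ 2 := by
    have : 0 < 512 * (d + 1) ^ 7 := by positivity
    nlinarith
  have hbig : ∀ i, 512 * (d + 1) ^ 7 ≤ D i := fun i => by
    have := hDbig i; omega
  -- conclusion from a chosen pair s, I0
  have fin : ∀ (s : Fin r) (I0 : Finset (Fin r)), s ∉ I0 → I0.card = d →
      (∀ i ∈ I0, D s ≤ D i) →
      (∀ l0 ∈ I0, (∀ i ∈ I0, D l0 ≤ D i) →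
        512 * (d + 1) ^ 7 * (P3a A nb D I0).card ≤ d ^ 3 * (D l0 ^ 2 * A.card)) →
      ∃ S : Finset V, S.Nonempty ∧
      (∀ v ∈ S, d < (S.filter (fun w => G.Adj v w)).card) ∧
      ∀ (v : V) (p : G.Walk v v), p.IsCycle → (∀ w ∈ p.support, w ∈ S) → p.length ≠ 6 := by
    intro s I0 hs hI0 hsmin hT
    have hne : I0.Nonempty := by rw [← card_pos]; omega
    obtain ⟨l0, hl0, hl0min⟩ := exists_min_image I0 D hne
    exact S.core2 (d + 1) d rfl s I0 hs hI0 l0 hl0 hl0min (hsmin l0 hl0) (hT l0 hl0 hl0min)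
      (hbig l0) (by have := hDbig s; omega) ⟨a0, ha0⟩
  -- conclusion from a set of d+1 classes
  have fin2 : ∀ (I : Finset (Fin r)), I.card = d + 1 →
      (∀ I0 ⊆ I, I0.card = d → ∀ l0 ∈ I0, (∀ i ∈ I0, D l0 ≤ D i) →
        ∀ i ∈ I0, ∀ j ∈ I0, ∀ k ∈ I0, i ≠ j → i ≠ k → j ≠ k → D i ≤ D j → D i ≤ D k →
      512 * (d + 1) ^ 7 * D i ≤ D l0 ^ 2) →
      ∃ S : Finset V, S.Nonempty ∧
      (∀ v ∈ S, d < (S.filter (fun w => G.Adj v w)).card) ∧
      ∀ (v : V) (p : G.Walk v v), p.IsCycle → (∀ w ∈ p.support, w ∈ S) → p.length ≠ 6 := by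
    intro I hI hIT
    have hne : I.Nonempty := by rw [← card_pos]; omega
    obtain ⟨s, hs, hsmin⟩ := exists_min_image I D hne
    have hcard : (I.erase s).card = d := by rw [card_erase_of_mem hs, hI]; rfl
    apply fin s (I.erase s) (notMem_erase _ _) hcard
    · intro i hi
      exact hsmin i (mem_of_mem_erase hi)
    · intro l0 hl0 hl0min
      exact S.P3a_card (d + 1) d (I.erase s) hcard l0
        (hIT _ (erase_subset _ _) hcard l0 hl0 hl0min)
  rcases h6 with h6 | h6 | ⟨s, I, hsI, hIcard, hdeg, hcnt⟩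
  · -- at most four classes are needed
    obtain ⟨I, _, hI⟩ := exists_subset_card_eq (s := (univ : Finset (Fin r))) (n := d + 1)
      (by rw [card_univ, Fintype.card_fin]; omega)
    apply fin2 I hI
    intro I0 hI0 hI0card l0 hl0 hmin i hi j hj k hk hij hik hjk hDij hDik
    have hsub : ({i, j, k} : Finset (Fin r)) ⊆ I0 := by
      intro x hx
      simp only [mem_insert, mem_singleton] at hx
      rcases hx with rfl | rfl | rfl <;> assumption
    have h3c : ({i, j, k} : Finset (Fin r)).card = 3 := card_eq_three.2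
      ⟨i, j, k, hij, hik, hjk, rfl⟩
    have heq : ({i, j, k} : Finset (Fin r)) = I0 := eq_of_subset_of_card_le hsub (by omega)
    have hil : D i ≤ D l0 := by
      rw [← heq] at hl0
      simp only [mem_insert, mem_singleton] at hl0
      rcases hl0 with rfl | rfl | rfl
      · exact le_refl _
      · exact hDij
      · exact hDik
    calc 512 * (d + 1) ^ 7 * D i ≤ D l0 * D l0 := Nat.mul_le_mul (hbig l0) hil
      _ = _ := by ring
  · -- pigeonhole
    set R := r / (4 * d + 4) with hR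
    have hRr : (4 * d + 4) * R ≤ r := Nat.mul_div_le _ _
    have hmaps : ∀ i ∈ (univ : Finset (Fin r)), box (D i) ∈ (range (R + 1)) ×ˢ (range 2) := by
      intro i _
      rw [mem_product, mem_range, mem_range]
      constructor
      · have e1 : D i ≤ 2 ^ (2 ^ R) := h6 _
        have e2 : Nat.log 2 (D i) ≤ 2 ^ R := by
          calc Nat.log 2 (D i) ≤ Nat.log 2 (2 ^ (2 ^ R)) := Nat.log_mono_right e1
            _ = 2 ^ R := Nat.log_pow (by norm_num) _
        have e3 : Nat.log 2 (Nat.log 2 (D i)) ≤ R := by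
          calc Nat.log 2 (Nat.log 2 (D i)) ≤ Nat.log 2 (2 ^ R) := Nat.log_mono_right e2
            _ = R := Nat.log_pow (by norm_num) _
        show Nat.log 2 (Nat.log 2 (D i)) < R + 1
        omega
      · show (if _ then 0 else 1) < 2
        split_ifs <;> omega
    obtain ⟨y, _, hy⟩ := exists_lt_card_fiber_of_mul_lt_card_of_maps_to (n := d) hmaps (by
      rw [card_product, card_range, card_range, card_univ, Fintype.card_fin]
      nlinarith)
    obtain ⟨I, hIsub, hI⟩ := exists_subset_card_eq (n := d + 1) hy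
    have hclose : ∀ i ∈ I, ∀ l ∈ I, 512 * (d + 1) ^ 7 * D i ≤ D l ^ 2 := by
      intro i hi l hl
      have hi' := hIsub hi
      have hl' := hIsub hl
      rw [mem_filter] at hi' hl'
      have b1 := hDbig i
      have b2 := hDbig l
      apply sq_of_cube
      · exact box_close _ _ (by omega) (by omega) (by rw [hi'.2, hl'.2])
      · omega
    apply fin2 I hI
    intro I0 hI0 _ l0 hl0 _ i hi j hj k hk _ _ _ _ _
    exact hclose i (hI0 hi) l0 (hI0 hl0)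
  · -- few hexagons
    apply fin s I hsI hIcard
    · intro i hi
      apply hdeg _ _ (S.nbA a0 ha0 s) (S.nbA a0 ha0 i) (S.nbf a0 ha0 s)
      rw [S.nbf a0 ha0 i]; exact hi
    · intro l0 hl0 _
      have e1 := hcnt (nb a0 l0) (S.nbA a0 ha0 l0) (by rw [S.nbf a0 ha0 l0]; exact hl0)
      have e2 : (P3a A nb D I).card ≤ Set.ncard {t : V × V × V | t.1 ∈ A ∧ t.2.1 ∈ A ∧ t.2.2 ∈ A ∧
              t.1 ≠ t.2.1 ∧ t.1 ≠ t.2.2 ∧ t.2.1 ≠ t.2.2 ∧
              ∃ b₁ b₂ b₃ : V, f b₁ ∈ I ∧ f b₂ ∈ I ∧ f b₃ ∈ I ∧ b₁ ≠ b₂ ∧ b₁ ≠ b₃ ∧ b₂ ≠ b₃ ∧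
                G.Adj t.1 b₁ ∧ G.Adj t.2.1 b₁ ∧ G.Adj t.2.1 b₂ ∧ G.Adj t.2.2 b₂ ∧
                G.Adj t.2.2 b₃ ∧ G.Adj t.1 b₃} := by
        rw [← Set.ncard_coe_finset]
        apply Set.ncard_le_ncard _ (Set.toFinite _)
        intro t ht
        rw [mem_coe, P3a, mem_biUnion] at ht
        obtain ⟨q, hq, htq⟩ := ht
        rw [Q3, mem_filter, mem_product, mem_product] at hq
        obtain ⟨⟨q1, q2, q3⟩, n1, n2, n3, _⟩ := hq
        rw [T0, mem_filter, mem_product, mem_product] at htq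
        obtain ⟨⟨x1, x2, x3⟩, m1, m2, m3, r1, r2, r3⟩ := htq
        refine ⟨x1, x2, x3, m1, m2, m3, nb t.1 q.1, nb t.2.1 q.2.2, nb t.1 q.2.1, ?_, ?_, ?_,
          ?_, ?_, ?_, S.nbadj _ x1 _, ?_, S.nbadj _ x2 _, ?_, ?_, S.nbadj _ x1 _⟩
        · rw [S.nbf _ x1]; exact q1
        · rw [S.nbf _ x2]; exact q3
        · rw [S.nbf _ x1]; exact q2
        · intro h; apply n2; rw [← S.nbf _ x1 q.1, ← S.nbf _ x2 q.2.2, h]
        · intro h; apply n1; rw [← S.nbf _ x1 q.1, ← S.nbf _ x1 q.2.1, h]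
        · intro h; apply n3.symm; rw [← S.nbf _ x1 q.2.1, ← S.nbf _ x2 q.2.2, h]
        · rw [r1]; exact S.nbadj _ x2 _
        · rw [r3]; exact S.nbadj _ x3 _
        · rw [r2]; exact S.nbadj _ x3 _
      calc 512 * (d + 1) ^ 7 * (P3a A nb D I).card ≤ _ := Nat.mul_le_mul_left _ e2
        _ ≤ D l0 ^ 2 * A.card := e1
        _ = 1 * (D l0 ^ 2 * A.card) := by ring
        _ ≤ _ := Nat.mul_le_mul_right _ (Nat.one_le_pow _ _ (by omega))

end Pool.Agent.R578.SNR
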